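import Pool.Agent.H23.LC.Targets
import Pool.Agent.H56.GLA.GZ
import Pool.Agent.H41.HK.JA
import Pool.Agent.H87.HK.YC

/-!
# The Gamma integral for characters with angular parameters (GK)
-/

set_option autoImplicit false

open NumberField NumberField.InfinitePlace NumberField.Units
  NumberField.Units.dirichletUnitTheorem MeasureTheory Set Filter Complex
open scoped nonZeroDivisors ENNReal

namespace Pool.Agent.H56.GLB

open Pool.Agent.H25.HK Pool.Agent.H23.LB Pool.Agent.H23.LC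
open Pool.Agent.H28.RC (Rep ft idl)

/-- the local integral -/
theorem loc_int (K : Type) [Field K] [NumberField K] (v : InfinitePlace K) (a : ℝ) (ha : 0 < a)
    (m : ℕ) (s : ℂ) (ν : ℝ) (hs : 0 < s.re) :
    Integrable (fun y : ℝ => ((Real.exp (y / 2) * a : ℝ) : ℂ) ^ m *
      (cexp (-Real.pi * ((v.mult * Real.exp y * a ^ 2 : ℝ) : ℂ)) *
        cexp ((s - ν * I) * (v.mult : ℝ) * y / 2))) ∧
    ∫ y : ℝ, ((Real.exp (y / 2) * a : ℝ) : ℂ) ^ m *
      (cexp (-Real.pi * ((v.mult * Real.exp y * a ^ 2 : ℝ) : ℂ)) *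
        cexp ((s - ν * I) * (v.mult : ℝ) * y / 2)) =
      (open scoped Classical in if IsReal v then Gammaℝ (s + m - ν * I) else
        2⁻¹ * Gammaℂ (s + m / 2 - ν * I)) *
        (((a ^ v.mult : ℝ) : ℂ) ^ (-s) * cexp (((v.mult : ℝ) * ν * Real.log a : ℝ) * I)) := by
  have hm0 : 0 < (v.mult : ℝ) := by
    have := v.mult_pos
    positivity
  have hmne : ((v.mult : ℝ) : ℂ) ≠ 0 := Complex.ofReal_ne_zero.mpr hm0.ne'
  set e : ℝ := (v.mult : ℝ) with he
  obtain ⟨w, hw⟩ : ∃ w : ℂ, w = s + m / e - ν * I := ⟨_, rfl⟩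
  have hwre : 0 < w.re := by
    have h1 : w = ((m / e : ℝ) : ℂ) + s - ((ν : ℝ) : ℂ) * I := by
      rw [hw]
      push_cast
      ring
    have h2 : w.re = m / e + s.re := by
      rw [h1]
      simp
    rw [h2]
    positivity
  have key := Pool.Agent.H56.GLA.g1c e a 0 w hm0 ha (by
    rw [abs_zero]
    positivity) hwre
  simp only [Complex.ofReal_zero, zero_mul, Complex.exp_zero, one_mul, zero_div, neg_zero,
    mul_one] at key
  have hfun : ∀ y : ℝ, ((Real.exp (y / 2) * a : ℝ) : ℂ) ^ m *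
      (cexp (-Real.pi * ((e * Real.exp y * a ^ 2 : ℝ) : ℂ)) * cexp ((s - ν * I) * e * y / 2)) =
      (a : ℂ) ^ m * (cexp (-Real.pi * ((e * Real.exp y * a ^ 2 : ℝ) : ℂ)) *
        cexp (w * e * y / 2)) := by
    intro y
    have h1 : cexp (w * e * y / 2) = cexp (((y / 2 : ℝ) : ℂ)) ^ m *
        cexp ((s - ν * I) * e * y / 2) := by
      rw [← Complex.exp_nat_mul, ← Complex.exp_add]
      congr 1
      rw [hw]
      push_cast
      field_simp
      ring
    rw [h1, Complex.ofReal_mul, mul_pow, Complex.ofReal_exp]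
    ring
  have hfun' : (fun y : ℝ => ((Real.exp (y / 2) * a : ℝ) : ℂ) ^ m *
      (cexp (-Real.pi * ((e * Real.exp y * a ^ 2 : ℝ) : ℂ)) * cexp ((s - ν * I) * e * y / 2))) =
      fun y : ℝ => (a : ℂ) ^ m * (cexp (-Real.pi * ((e * Real.exp y * a ^ 2 : ℝ) : ℂ)) *
        cexp (w * e * y / 2)) := funext hfun
  rw [hfun']
  refine ⟨key.1.const_mul _, ?_⟩
  rw [integral_const_mul, key.2]
  have h2 := Pool.Agent.H41.HK.local_factor K v a ha w
  rw [← he] at h2
  rw [h2]
  have hG : (open scoped Classical in if IsReal v then Gammaℝ w else 2⁻¹ * Gammaℂ w) =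
      (open scoped Classical in if IsReal v then Gammaℝ (s + m - ν * I) else
        2⁻¹ * Gammaℂ (s + m / 2 - ν * I)) := by
    split_ifs with h
    · have : e = 1 := by rw [he, h.mult_eq_one]; simp
      rw [hw, this]
      simp
    · have h' : v.IsComplex := not_isReal_iff_isComplex.1 h
      have : e = 2 := by rw [he, h'.mult_eq_two]; simp
      rw [hw, this]
      simp
  rw [hG]
  have h3 : (a : ℂ) ^ m * ((a ^ v.mult : ℝ) : ℂ) ^ (-w) =
      ((a ^ v.mult : ℝ) : ℂ) ^ (-s) * cexp ((e * ν * Real.log a : ℝ) * I) := by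
    have h4 : 0 < a ^ v.mult := by positivity
    have h5 : ((a ^ v.mult : ℝ) : ℂ) ≠ 0 := Complex.ofReal_ne_zero.mpr h4.ne'
    have h6 : (a : ℂ) ≠ 0 := Complex.ofReal_ne_zero.mpr ha.ne'
    have h7 : (a : ℂ) ^ m = cexp (m * Real.log a) := by
      rw [← Complex.cpow_natCast, Complex.cpow_def_of_ne_zero h6, ← Complex.ofReal_log ha.le,
        mul_comm]
    rw [h7, Complex.cpow_def_of_ne_zero h5, Complex.cpow_def_of_ne_zero h5,
      ← Complex.ofReal_log h4.le, Real.log_pow, ← he, ← Complex.exp_add, ← Complex.exp_add]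
    congr 1
    rw [hw]
    push_cast
    field_simp
    ring
  linear_combination (open scoped Classical in if IsReal v then Gammaℝ (s + m - ν * I) else
        2⁻¹ * Gammaℂ (s + m / 2 - ν * I)) * h3

open scoped Classical in
/-- the Gamma factor as a product without the powers of `2` -/
theorem prod_gG (K : Type) [Field K] [NumberField K] (k : InfinitePlace K → ℤ)
    (hk : ∀ v : InfinitePlace K, v.IsReal → k v = 0 ∨ k v = 1)
    (ν : InfinitePlace K → ℝ) (s : ℂ) :
    ∏ v : InfinitePlace K, (if v.IsReal then Gammaℝ (s + (k v).natAbs - ν v * I) else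
        2⁻¹ * Gammaℂ (s + (k v).natAbs / 2 - ν v * I)) =
      ((2 : ℂ) ^ nrComplexPlaces K)⁻¹ * gG K k ν s := by
  have h1 : ∀ v : InfinitePlace K, (if v.IsReal then Gammaℝ (s + (k v).natAbs - ν v * I) else
        2⁻¹ * Gammaℂ (s + (k v).natAbs / 2 - ν v * I)) =
      (if v.IsReal then (1 : ℂ) else 2⁻¹) * (if v.IsReal then Gammaℝ (s + k v - ν v * I)
        else Gammaℂ (s + |(k v : ℝ)| / 2 - ν v * I)) := by
    intro v
    by_cases h : v.IsReal
    · rw [if_pos h, if_pos h, if_pos h, one_mul]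
      rcases hk v h with h2 | h2 <;> rw [h2] <;> simp
    · rw [if_neg h, if_neg h, if_neg h]
      have h2 : (((k v).natAbs : ℕ) : ℂ) = ((|(k v : ℝ)| : ℝ) : ℂ) := by
        rw [← Int.cast_abs, ← Nat.cast_natAbs, Complex.ofReal_natCast]
      rw [h2]
  rw [Finset.prod_congr rfl fun v _ => h1 v, Finset.prod_mul_distrib, gG]
  congr 1
  rw [Finset.prod_ite, Finset.prod_const_one, one_mul, Finset.prod_const, inv_pow]
  have h7 : (Finset.univ.filter (fun v : InfinitePlace K => ¬ IsReal v)).card =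
      nrComplexPlaces K := by
    rw [nrComplexPlaces, Fintype.card_subtype]
    congr 1
    ext v
    simp [not_isReal_iff_isComplex]
  rw [h7]

open scoped Classical in
/-- (GK) the Gamma integral. -/
theorem pf_GK (_hAG : U_AG) (hPU : Pool.Agent.H23.LB.T_PU) : U_GK := by
  intro K _ _ k x ν s hk hx hν hs
  have h1 := Pool.Agent.H41.HK.ja
  have h3 := Pool.Agent.H87.HK.yc_main
  obtain ⟨hy, -⟩ := h3 K
  have hpr := (hPU K).2.1 ν hν
  let f : InfinitePlace K → ℝ → ℂ := fun v y =>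
    ((Real.exp (y / 2) * v x : ℝ) : ℂ) ^ (k v).natAbs *
    (cexp (-Real.pi * ((v.mult * Real.exp y * (v x) ^ 2 : ℝ) : ℂ)) *
      cexp ((s - ν v * I) * (v.mult : ℝ) * y / 2))
  let g : (InfinitePlace K → ℝ) → ℂ := fun y => ∏ v, f v (y v)
  have hvx : ∀ v : InfinitePlace K, 0 < v x := fun v => InfinitePlace.pos_iff.mpr hx
  have hfi : ∀ v, Integrable (f v) := fun v =>
    (loc_int K v (v x) (hvx v) (k v).natAbs s (ν v) hs).1
  have hgi : Integrable g := Integrable.fintype_prod hfi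
  have h5 : ∀ v : InfinitePlace K, ∫ y, f v y =
      (if IsReal v then Gammaℝ (s + (k v).natAbs - ν v * I) else
        2⁻¹ * Gammaℂ (s + (k v).natAbs / 2 - ν v * I)) *
        ((((v x) ^ v.mult : ℝ) : ℂ) ^ (-s) *
          cexp (((v.mult : ℝ) * ν v * Real.log (v x) : ℝ) * I)) := fun v =>
    (loc_int K v (v x) (hvx v) (k v).natAbs s (ν v) hs).2
  have hgv : ∫ y, g y = ((2 : ℂ) ^ nrComplexPlaces K)⁻¹ * gG K k ν s *
      ((((|Algebra.norm ℚ x| : ℚ) : ℝ) : ℂ) ^ (-s) * ph ν x) := by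
    have h4 : ∫ y, g y = ∏ v : InfinitePlace K, ∫ y, f v y :=
      integral_fintype_prod_volume_eq_prod f
    rw [h4]
    simp_rw [h5]
    rw [Finset.prod_mul_distrib, Finset.prod_mul_distrib,
      prod_gG K k hk ν s, ← Pool.Agent.H41.HK.prod_cpow_of_pos Finset.univ
        (fun v : InfinitePlace K => (v x) ^ v.mult) (fun v _ => by positivity),
      InfinitePlace.prod_eq_abs_norm, ← Complex.exp_sum, ph]
    congr 3
    rw [Complex.ofReal_sum, Finset.sum_mul]
  have hfun : (fun p : ℝ × logSpace K => ag k x * g (yc K p.1 p.2)) =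
      (fun p : ℝ × logSpace K => wk K k (yc K p.1 p.2) x *
      ((Real.exp (-Real.pi * qK K (yc K p.1 p.2) x) : ℝ) : ℂ) *
        (cexp (s * p.1) * ec K ν p.2)) := by
    funext p
    have e1 : ∏ v : InfinitePlace K,
        cexp (-Real.pi * ((v.mult * Real.exp (yc K p.1 p.2 v) * (v x) ^ 2 : ℝ) : ℂ)) =
        ((Real.exp (-Real.pi * qK K (yc K p.1 p.2) x) : ℝ) : ℂ) := by
      rw [← Complex.exp_sum, ← Finset.mul_sum, ← Complex.ofReal_sum, Complex.ofReal_exp]
      congr 1
      rw [qK]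
      push_cast
      ring
    have e2 : ∏ v : InfinitePlace K,
        cexp ((s - ν v * I) * ((v.mult : ℝ) : ℂ) * ((yc K p.1 p.2 v : ℝ) : ℂ) / 2) =
        cexp (s * p.1) * ec K ν p.2 := by
      rw [← Complex.exp_sum, ec, ← Complex.exp_add]
      congr 1
      have h8 := hy p.1 p.2
      have h9 : ((∑ v, (v.mult : ℝ) * yc K p.1 p.2 v : ℝ) : ℂ) = ((2 * p.1 : ℝ) : ℂ) := by
        rw [h8]
      rw [hpr p.1 p.2]
      have h10 : ∑ v : InfinitePlace K,
          (s - ν v * I) * ((v.mult : ℝ) : ℂ) * ((yc K p.1 p.2 v : ℝ) : ℂ) / 2 =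
          s / 2 * ((∑ v : InfinitePlace K, (v.mult : ℝ) * yc K p.1 p.2 v : ℝ) : ℂ) -
          (((∑ v : InfinitePlace K, (v.mult : ℝ) * ν v * yc K p.1 p.2 v) / 2 : ℝ) : ℂ) * I := by
        push_cast
        rw [Finset.mul_sum, Finset.sum_div, Finset.sum_mul, ← Finset.sum_sub_distrib]
        refine Finset.sum_congr rfl fun v _ => ?_
        ring
      rw [h10, h9]
      push_cast
      ring
    simp only [g, f]
    rw [Finset.prod_mul_distrib, Finset.prod_mul_distrib, e1, e2, wk]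
    ring
  obtain ⟨h11, h12⟩ := h1 K g hgi
  have h14 := h11.const_mul (ag k x)
  rw [hfun] at h14
  refine ⟨h14, ?_⟩
  rw [← hfun, integral_const_mul, h12, hgv, pow_add, mul_inv]
  ring

end Pool.Agent.H56.GLB
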