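import Pool.Agent.H23.LC.Targets
import Pool.Agent.H23.LB.Targets
import Pool.Agent.H92.RC.ID
import Pool.Agent.H87.HK.YC

/-!
# FF: from fat regions to theta functions
-/

set_option autoImplicit false

open NumberField NumberField.InfinitePlace NumberField.Units
  NumberField.Units.dirichletUnitTheorem MeasureTheory Set Filter Complex
open scoped nonZeroDivisors ENNReal

namespace Pool.Agent.H56.GLB

open Pool.Agent.H25.HK Pool.Agent.H23.LB Pool.Agent.H23.LC
open Pool.Agent.H28.RC (Rep ft idl)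

section

variable {K : Type} [Field K] [NumberField K]

theorem norm_idl {M : FI K} (hM : M ≠ 0) {x : K} (hx : x ∈ M) :
    (Ideal.absNorm (idl K M x) : ℝ) * (FractionalIdeal.absNorm M : ℝ) =
      ((|Algebra.norm ℚ x| : ℚ) : ℝ) := by
  have h1 := congrArg FractionalIdeal.absNorm (Pool.Agent.H92.RC.idl_mul M hM hx)
  rw [map_mul, FractionalIdeal.coeIdeal_absNorm, FractionalIdeal.absNorm_span_singleton] at h1
  rw [← h1]
  push_cast
  rfl

theorem sum_log {x : K} (hx : x ≠ 0) : ∑ v : InfinitePlace K, (v.mult : ℝ) * Real.log (v x) =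
    Real.log ((|Algebra.norm ℚ x| : ℚ) : ℝ) := by
  rw [← InfinitePlace.prod_eq_abs_norm, Real.log_prod fun v _ => by
    have : 0 < v x := InfinitePlace.pos_iff.mpr hx
    positivity]
  exact Finset.sum_congr rfl fun v _ => by rw [Real.log_pow]

theorem aN_pos {M : FI K} (hM : M ≠ 0) : (0 : ℝ) < (FractionalIdeal.absNorm M : ℝ) := by
  have h1 : FractionalIdeal.absNorm M ≠ 0 := fun h =>
    hM (FractionalIdeal.absNorm_eq_zero_iff.1 h)
  have h2 := FractionalIdeal.absNorm_nonneg M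
  exact_mod_cast lt_of_le_of_ne h2 h1.symm

theorem sum_mult : ∑ v : InfinitePlace K, (v.mult : ℝ) = Module.finrank ℚ K := by
  exact_mod_cast InfinitePlace.sum_mult_eq

/-- the sum over the places -/
theorem sum_Bt {M : FI K} (hM : M ≠ 0) {x : K} (hx : x ∈ M) (hx0 : x ≠ 0) (τ : ℝ)
    (z : logSpace K) (hI : (0 : ℝ) < (Ideal.absNorm (idl K M x) : ℝ)) :
    ∑ v : InfinitePlace K, (v.mult : ℝ) * (Real.log (v x) + yM K M τ z v / 2) =
      τ + Real.log (Ideal.absNorm (idl K M x) : ℝ) := by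
  have h1 := (Pool.Agent.H87.HK.yc_main K).1 (τ - Real.log (FractionalIdeal.absNorm M : ℝ)) z
  have h2 : ∑ v : InfinitePlace K, (v.mult : ℝ) * (Real.log (v x) + yM K M τ z v / 2) =
      ∑ v : InfinitePlace K, (v.mult : ℝ) * Real.log (v x) +
        (∑ v : InfinitePlace K, (v.mult : ℝ) *
          yc K (τ - Real.log (FractionalIdeal.absNorm M : ℝ)) z v) / 2 := by
    rw [Finset.sum_div, ← Finset.sum_add_distrib]
    refine Finset.sum_congr rfl fun v _ => ?_
    unfold yM
    ring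
  rw [h2, h1, sum_log hx0, ← norm_idl hM hx, Real.log_mul hI.ne' (aN_pos hM).ne']
  ring

theorem supp {M : FI K} (hM : M ≠ 0) {Y τ : ℝ} (hY : 0 < Y) {z : logSpace K} {x : K}
    (hx : Bl Y M x) (hb : Bt 1 x (yM K M τ z)) :
    τ ∈ Icc (-Real.log (2 * Y) - Module.finrank ℚ K) (-Real.log Y + Module.finrank ℚ K) := by
  obtain ⟨h1, h2, h3, h4⟩ := hx
  have hI : (0 : ℝ) < (Ideal.absNorm (idl K M x) : ℝ) := by linarith
  have h5 := sum_Bt hM h1 h2 τ z hI
  have h6 : |∑ v : InfinitePlace K, (v.mult : ℝ) * (Real.log (v x) + yM K M τ z v / 2)| ≤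
      Module.finrank ℚ K := by
    refine (Finset.abs_sum_le_sum_abs _ _).trans ?_
    rw [← sum_mult]
    refine Finset.sum_le_sum fun v _ => ?_
    rw [abs_mul, abs_of_nonneg (Nat.cast_nonneg _)]
    exact mul_le_of_le_one_right (Nat.cast_nonneg _) (hb v)
  rw [h5, abs_le] at h6
  have h7 := Real.log_le_log hY h3
  have h8 := Real.log_le_log hI h4.le
  constructor <;> linarith [h6.1, h6.2]

/-- the normalised theta function -/
theorem FT_eq {M : FI K} (hM : M ≠ 0) (τ : ℝ) (z : logSpace K) :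
    FT K M z (Real.exp τ * Real.sqrt |(discr K : ℝ)|) = th K M (yM K M τ z) := by
  have hd : 0 < Real.sqrt |(discr K : ℝ)| :=
    Real.sqrt_pos.2 (abs_pos.2 (by exact_mod_cast discr_ne_zero K))
  have hN := aN_pos hM
  unfold FT yM
  congr 2
  rw [cv, show Real.exp τ * Real.sqrt |(discr K : ℝ)| / (Real.sqrt |(discr K : ℝ)| *
    (FractionalIdeal.absNorm M : ℝ)) = Real.exp τ / (FractionalIdeal.absNorm M : ℝ) by
      field_simp, Real.log_div (Real.exp_pos τ).ne' hN.ne', Real.log_exp]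

theorem FT_eq2 {f : Ideal (𝓞 K)} (hf : f ≠ ⊥) {M : FI K} (hM : M ≠ 0) (τ : ℝ) (z : logSpace K)
    {δ : ℝ} (hδ : 0 < δ) :
    FT K ((f : FI K) * M) z (Nf K f * δ ^ (-(Module.finrank ℚ K : ℝ)) *
      (Real.exp τ * Real.sqrt |(discr K : ℝ)|)) =
      th K ((f : FI K) * M) (fun v => yM K M τ z v - 2 * Real.log δ) := by
  have hd : 0 < Real.sqrt |(discr K : ℝ)| :=
    Real.sqrt_pos.2 (abs_pos.2 (by exact_mod_cast discr_ne_zero K))
  have hN := aN_pos hM
  have hn : (Module.finrank ℚ K : ℝ) ≠ 0 := by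
    exact_mod_cast (Module.finrank_pos (R := ℚ) (M := K)).ne'
  have hNf : 0 < Nf K f := by
    have h : Ideal.absNorm f ≠ 0 := fun h => hf (Ideal.absNorm_eq_zero_iff.1 h)
    unfold Nf
    exact_mod_cast Nat.pos_of_ne_zero h
  have hp : 0 < δ ^ (-(Module.finrank ℚ K : ℝ)) := Real.rpow_pos_of_pos hδ _
  have hcv : cv K ((f : FI K) * M) = Real.sqrt |(discr K : ℝ)| *
      (Nf K f * (FractionalIdeal.absNorm M : ℝ)) := by
    rw [cv, map_mul, FractionalIdeal.coeIdeal_absNorm]
    unfold Nf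
    push_cast
    rfl
  have h1 : Real.log (Nf K f * δ ^ (-(Module.finrank ℚ K : ℝ)) *
      (Real.exp τ * Real.sqrt |(discr K : ℝ)|) / cv K ((f : FI K) * M)) =
      τ - Real.log (FractionalIdeal.absNorm M : ℝ) - Module.finrank ℚ K * Real.log δ := by
    rw [hcv, show Nf K f * δ ^ (-(Module.finrank ℚ K : ℝ)) *
      (Real.exp τ * Real.sqrt |(discr K : ℝ)|) / (Real.sqrt |(discr K : ℝ)| *
      (Nf K f * (FractionalIdeal.absNorm M : ℝ))) = δ ^ (-(Module.finrank ℚ K : ℝ)) *
        (Real.exp τ / (FractionalIdeal.absNorm M : ℝ)) by field_simp,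
      Real.log_mul hp.ne' (div_pos (Real.exp_pos τ) hN).ne', Real.log_div (Real.exp_pos τ).ne'
        hN.ne', Real.log_exp, Real.log_rpow hδ]
    ring
  have hyc := (Pool.Agent.H87.HK.yc_main K).2.2.2.1
  unfold FT
  rw [h1]
  congr 1
  funext v
  unfold yM
  rw [hyc (τ - Real.log (FractionalIdeal.absNorm M : ℝ)) z v, hyc _ z v]
  field_simp
  ring

/-- the theta series as a sum in `ℝ≥0∞` -/
theorem th_enn {L : FI K} {y : InfinitePlace K → ℝ} (h : 1 ≤ th K L y) :
    ∑' x : {x : K // x ∈ L}, ENNReal.ofReal (Real.exp (-Real.pi * qK K y x)) =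
      ENNReal.ofReal (th K L y) := by
  have hs : Summable fun x : {x : K // x ∈ L} => Real.exp (-Real.pi * qK K y x) := by
    by_contra hs
    have : th K L y = 0 := tsum_eq_zero_of_not_summable hs
    linarith
  unfold th
  rw [ENNReal.ofReal_tsum_of_nonneg (fun x => (Real.exp_pos _).le) hs]

open scoped Classical in
theorem th_enn1 {L : FI K} {y : InfinitePlace K → ℝ} (h : 1 ≤ th K L y) :
    ∑' x : {x : K // x ∈ L}, (if x.1 = 0 then 0 else
      ENNReal.ofReal (Real.exp (-Real.pi * qK K y x))) = ENNReal.ofReal (th K L y - 1) := by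
  have h0 : (0 : K) ∈ L := L.zero_mem
  have h1 := th_enn h
  rw [ENNReal.tsum_eq_add_tsum_ite (⟨0, h0⟩ : {x : K // x ∈ L})] at h1
  have h2 : qK K y (0 : K) = 0 := by
    unfold qK
    simp
  simp only [h2, mul_zero, Real.exp_zero, ENNReal.ofReal_one] at h1
  rw [ENNReal.ofReal_sub _ zero_le_one, ENNReal.ofReal_one, ← h1,
    ENNReal.add_sub_cancel_left ENNReal.one_ne_top]
  refine tsum_congr fun x => ?_
  by_cases hx : x.1 = 0
  · rw [if_pos hx, if_pos (Subtype.ext hx)]
  · rw [if_neg hx, if_neg (fun h => hx (congrArg Subtype.val h))]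

/-- a lower bound for the terms -/
theorem term_ge {y : InfinitePlace K → ℝ} {x : K} {B : ℝ} (hB : 0 ≤ B)
    (h : ∀ v : InfinitePlace K, v x * Real.exp (y v / 2) ≤ B) :
    (1 : ℝ≥0∞) ≤ ENNReal.ofReal (Real.exp (Real.pi * (Module.finrank ℚ K * B ^ 2))) *
      ENNReal.ofReal (Real.exp (-Real.pi * qK K y x)) := by
  rw [← ENNReal.ofReal_mul (Real.exp_pos _).le, ← Real.exp_add, ENNReal.one_le_ofReal]
  refine Real.one_le_exp ?_
  have h1 : qK K y x ≤ Module.finrank ℚ K * B ^ 2 := by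
    unfold qK
    rw [← sum_mult, Finset.sum_mul]
    refine Finset.sum_le_sum fun v _ => ?_
    have h2 : (v x * Real.exp (y v / 2)) ^ 2 ≤ B ^ 2 :=
      pow_le_pow_left₀ (mul_nonneg (apply_nonneg v x) (Real.exp_pos _).le) (h v) 2
    have h3 : Real.exp (y v) = Real.exp (y v / 2) ^ 2 := by
      rw [← Real.exp_nat_mul]
      congr 1
      push_cast
      ring
    calc (v.mult : ℝ) * Real.exp (y v) * (v x) ^ 2
        = (v.mult : ℝ) * (v x * Real.exp (y v / 2)) ^ 2 := by
          rw [h3]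
          ring
      _ ≤ (v.mult : ℝ) * B ^ 2 := mul_le_mul_of_nonneg_left h2 (Nat.cast_nonneg _)
  have h4 := mul_le_mul_of_nonneg_left h1 Real.pi_pos.le
  linarith

open scoped Classical in
theorem NT_le {M : FI K} {Y τ : ℝ} {z : logSpace K} (h : 1 ≤ th K M (yM K M τ z)) :
    NT 1 Y M τ z ≤ ENNReal.ofReal (Real.exp (Real.pi * (Module.finrank ℚ K *
      Real.exp 1 ^ 2))) * ENNReal.ofReal (th K M (yM K M τ z) - 1) := by
  rw [← th_enn1 h, ← ENNReal.tsum_mul_left]
  unfold NT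
  have hinj : Function.Injective (fun x : {x : K // Bl Y M x} =>
      (⟨x.1, x.2.1⟩ : {x : K // x ∈ M})) := by
    intro a b hab
    have h2 : (⟨a.1, a.2.1⟩ : {x : K // x ∈ M}) = ⟨b.1, b.2.1⟩ := hab
    exact Subtype.ext (Subtype.mk.inj h2)
  refine le_trans (ENNReal.tsum_le_tsum fun x => ?_) (ENNReal.tsum_comp_le_tsum_of_injective hinj _)
  simp only []
  rw [if_neg x.2.2.1]
  split_ifs with hb
  · refine term_ge (Real.exp_pos 1).le fun v => ?_
    have h1 : 0 < v x.1 := InfinitePlace.pos_iff.mpr x.2.2.1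
    have h2 : v x.1 * Real.exp (yM K M τ z v / 2) =
        Real.exp (Real.log (v x.1) + yM K M τ z v / 2) := by
      rw [Real.exp_add, Real.exp_log h1]
    rw [h2]
    exact Real.exp_le_exp.2 ((le_abs_self _).trans (hb v))
  · exact zero_le

open scoped Classical in
theorem NB_le {L : FI K} {y : InfinitePlace K → ℝ} {A δ : ℝ} (hA : 0 ≤ A) (hδ : 0 < δ)
    (h : 1 ≤ th K L (fun v => y v - 2 * Real.log δ)) :
    NB (A * δ) L y ≤ ENNReal.ofReal (Real.exp (Real.pi * (Module.finrank ℚ K * A ^ 2))) *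
      ENNReal.ofReal (th K L (fun v => y v - 2 * Real.log δ)) := by
  rw [← th_enn h, ← ENNReal.tsum_mul_left]
  unfold NB
  refine ENNReal.tsum_le_tsum fun x => ?_
  split_ifs with hb
  · refine term_ge hA fun v => ?_
    have h1 : Real.exp ((y v - 2 * Real.log δ) / 2) = Real.exp (y v / 2) / δ := by
      rw [show (y v - 2 * Real.log δ) / 2 = y v / 2 - Real.log δ by ring, Real.exp_sub,
        Real.exp_log hδ]
    rw [h1, ← mul_div_assoc, div_le_iff₀ hδ]
    exact hb v
  · exact zero_le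

end

theorem pf_FF (hFP : Pool.Agent.H23.LB.T_FP) : U_FF := by
  intro n A hn hA
  set E₁ : ℝ := Real.exp (Real.pi * (n * Real.exp 1 ^ 2)) with hE₁
  set E₂ : ℝ := Real.exp (Real.pi * (n * A ^ 2)) with hE₂
  set E₃ : ℝ := 2 * Real.exp n with hE₃
  have hpi := Real.pi_pos
  have h1 : 1 ≤ E₁ := Real.one_le_exp (by positivity)
  have h2 : 1 ≤ E₂ := Real.one_le_exp (by positivity)
  have h3 : 1 ≤ E₃ := by
    have := Real.one_le_exp (x := (n : ℝ)) (by positivity)
    rw [hE₃]
    linarith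
  have hn1 : (1 : ℝ) ≤ n := by exact_mod_cast hn
  have hC1 : 1 ≤ E₁ * E₂ * (2 * n + 1) := by
    have h4 : 1 ≤ E₁ * E₂ := one_le_mul_of_one_le_of_one_le h1 h2
    exact one_le_mul_of_one_le_of_one_le h4 (by linarith)
  obtain ⟨C, hC⟩ : ∃ C : ℝ, C = E₁ * E₂ * (2 * n + 1) * E₃ := ⟨_, rfl⟩
  have hCC : 1 ≤ C := by
    rw [hC]
    exact one_le_mul_of_one_le_of_one_le hC1 h3
  have hC2 : E₁ * E₂ * (2 * n + 1) ≤ C := by
    rw [hC]
    exact le_mul_of_one_le_right (by linarith) h3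
  have hC3 : E₃ ≤ C := by
    rw [hC]
    exact le_mul_of_one_le_left (by linarith) hC1
  refine ⟨C, hCC, fun K _ _ hK f M δ Y hf hM hδ hδ' hY => ?_⟩
  have hf0 : (f : FI K) ≠ 0 := FractionalIdeal.coeIdeal_ne_zero.mpr hf
  have hfM : (f : FI K) * M ≠ 0 := mul_ne_zero hf0 hM
  have hd : 0 < Real.sqrt |(discr K : ℝ)| :=
    Real.sqrt_pos.2 (abs_pos.2 (by exact_mod_cast discr_ne_zero K))
  have hNf : 0 < Nf K f := by
    have h : Ideal.absNorm f ≠ 0 := fun h => hf (Ideal.absNorm_eq_zero_iff.1 h)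
    unfold Nf
    exact_mod_cast Nat.pos_of_ne_zero h
  have hp : 0 < δ ^ (-(n : ℝ)) := Real.rpow_pos_of_pos hδ _
  have hNp : 0 < Nf K f * δ ^ (-(n : ℝ)) := mul_pos hNf hp
  obtain ⟨V, hV⟩ : ∃ V : ℝ, V = C * Y / Real.sqrt |(discr K : ℝ)| := ⟨_, rfl⟩
  have hV0 : 0 < V := by rw [hV]; positivity
  rw [← hV]
  obtain ⟨-, -, hP3, hP4, -⟩ := hFP K M hM
  obtain ⟨-, -, hQ3, hQ4, -⟩ := hFP K ((f : FI K) * M) hfM
  rw [← lintegral_const_mul' _ _ ENNReal.ofReal_ne_top]
  refine lintegral_mono fun z => ?_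
  obtain ⟨a, ha⟩ : ∃ a : ℝ, a = -Real.log (2 * Y) - n := ⟨_, rfl⟩
  obtain ⟨b, hb⟩ : ∃ b : ℝ, b = -Real.log Y + n := ⟨_, rfl⟩
  obtain ⟨W, hW⟩ : ∃ W : ℝ, W = (FT K M z (1 / V) - 1) *
    FT K ((f : FI K) * M) z (Nf K f * δ ^ (-(n : ℝ)) / V) := ⟨_, rfl⟩
  rw [← hW]
  have hWa : 0 ≤ FT K M z (1 / V) - 1 := by
    linarith [(hP3 z (1 / V) (by positivity)).1]
  have hpt : ∀ τ : ℝ, NT 1 Y M τ z * NB (A * δ) ((f : FI K) * M) (yM K M τ z) ≤
      (Icc a b).indicator (fun _ => ENNReal.ofReal (E₁ * E₂ * W)) τ := by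
    intro τ
    by_cases hτ : τ ∈ Icc a b
    · rw [indicator_of_mem hτ]
      have hT : 0 < Real.exp τ * Real.sqrt |(discr K : ℝ)| := by positivity
      have e1 := FT_eq hM τ z
      have e2 := FT_eq2 hf hM τ z hδ
      rw [hK] at e2
      have g1 : 1 ≤ th K M (yM K M τ z) := by
        rw [← e1]
        exact (hP3 z _ hT).1
      have g2 : 1 ≤ th K ((f : FI K) * M) (fun v => yM K M τ z v - 2 * Real.log δ) := by
        rw [← e2]
        exact (hQ3 z _ (mul_pos hNp hT)).1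
      have hle : 1 / V ≤ Real.exp τ * Real.sqrt |(discr K : ℝ)| := by
        have h5 : Real.exp a ≤ Real.exp τ := Real.exp_le_exp.2 hτ.1
        have h6 : Real.exp a = (2 * Y * Real.exp n)⁻¹ := by
          rw [ha, Real.exp_sub, Real.exp_neg, Real.exp_log (by positivity), mul_inv (2 * Y),
            div_eq_mul_inv]
        rw [h6] at h5
        have h7 : 1 / V = (C * Y)⁻¹ * Real.sqrt |(discr K : ℝ)| := by
          rw [hV]
          field_simp
        rw [h7]
        refine mul_le_mul_of_nonneg_right ?_ hd.le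
        refine le_trans ?_ h5
        refine inv_anti₀ (by positivity) ?_
        calc 2 * Y * Real.exp n = E₃ * Y := by rw [hE₃]; ring
          _ ≤ C * Y := mul_le_mul_of_nonneg_right hC3 hY.le
      have a1 : th K M (yM K M τ z) ≤ FT K M z (1 / V) := by
        rw [← e1]
        exact hP4 z (mem_Ioi.2 (by positivity)) (mem_Ioi.2 hT) hle
      have a2 : th K ((f : FI K) * M) (fun v => yM K M τ z v - 2 * Real.log δ) ≤
          FT K ((f : FI K) * M) z (Nf K f * δ ^ (-(n : ℝ)) / V) := by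
        rw [← e2]
        refine hQ4 z (mem_Ioi.2 (by positivity)) (mem_Ioi.2 (mul_pos hNp hT)) ?_
        rw [div_eq_mul_one_div]
        exact mul_le_mul_of_nonneg_left hle hNp.le
      have b1 := NT_le (Y := Y) g1
      have b2 := NB_le (y := yM K M τ z) (show 0 ≤ A by linarith) hδ g2
      rw [hK] at b1 b2
      calc NT 1 Y M τ z * NB (A * δ) ((f : FI K) * M) (yM K M τ z)
          ≤ (ENNReal.ofReal E₁ * ENNReal.ofReal (FT K M z (1 / V) - 1)) *
            (ENNReal.ofReal E₂ * ENNReal.ofReal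
              (FT K ((f : FI K) * M) z (Nf K f * δ ^ (-(n : ℝ)) / V))) := by
            refine mul_le_mul' (b1.trans ?_) (b2.trans ?_)
            · exact mul_le_mul_right (ENNReal.ofReal_le_ofReal (by linarith)) _
            · exact mul_le_mul_right (ENNReal.ofReal_le_ofReal a2) _
        _ = ENNReal.ofReal (E₁ * E₂ * W) := by
            rw [hW, ← ENNReal.ofReal_mul (by linarith), ← ENNReal.ofReal_mul (by linarith),
              ← ENNReal.ofReal_mul (mul_nonneg (by linarith) hWa)]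
            congr 1
            ring
    · rw [indicator_of_notMem hτ]
      have h5 : NT 1 Y M τ z = 0 := by
        unfold NT
        rw [ENNReal.tsum_eq_zero]
        intro x
        rw [if_neg]
        intro hB
        apply hτ
        have h6 := supp hM hY x.2 hB
        rw [hK] at h6
        rw [ha, hb]
        exact h6
      rw [h5, zero_mul]
  refine (lintegral_mono hpt).trans ?_
  rw [lintegral_indicator_const measurableSet_Icc, Real.volume_Icc]
  have hW0 : 0 ≤ W := by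
    rw [hW]
    refine mul_nonneg hWa ?_
    linarith [(hQ3 z (Nf K f * δ ^ (-(n : ℝ)) / V) (by positivity)).1]
  have hba : b - a ≤ 2 * n + 1 := by
    have h5 : Real.log (2 * Y) = Real.log 2 + Real.log Y :=
      Real.log_mul (by norm_num) hY.ne'
    have h6 : Real.log 2 ≤ 1 := by linarith [Real.log_two_lt_d9]
    rw [ha, hb, h5]
    linarith
  rw [← ENNReal.ofReal_mul (by positivity), ← ENNReal.ofReal_mul (by linarith)]
  refine ENNReal.ofReal_le_ofReal ?_
  calc E₁ * E₂ * W * (b - a) ≤ E₁ * E₂ * W * (2 * n + 1) :=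
        mul_le_mul_of_nonneg_left hba (by positivity)
    _ = (E₁ * E₂ * (2 * n + 1)) * W := by ring
    _ ≤ C * W := mul_le_mul_of_nonneg_right hC2 hW0

end Pool.Agent.H56.GLB
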