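import Pool.Agent.H23.LC.Targets
import Pool.Agent.H65.GLA.MV

/-!
# PV: products of theta functions of ideal lattices
-/

set_option autoImplicit false

open NumberField NumberField.InfinitePlace NumberField.Units
  NumberField.Units.dirichletUnitTheorem MeasureTheory Set Filter Complex
open scoped nonZeroDivisors ENNReal

namespace Pool.Agent.H56.GLB

open Pool.Agent.H25.HK Pool.Agent.H23.LB Pool.Agent.H23.LC
open Pool.Agent.H28.RC (Rep ft idl)

open scoped Classical in
theorem pf_PV (hPW : U_PW) (hNS : Pool.Agent.H23.LB.T_NS) : U_PV := by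
  intro n hn
  obtain ⟨C, hC0, hC⟩ := hPW n hn
  refine ⟨C, hC0, fun κ hκ hκ1 K _ _ hK f M z N V hf hM hN hV => ?_⟩
  have hf0 : (f : FI K) ≠ 0 := FractionalIdeal.coeIdeal_ne_zero.mpr hf
  obtain ⟨P, hP, hPd, hPT⟩ := hNS K M z hM
  obtain ⟨Q, hQ, hQd, hQT⟩ := hNS K ((f : FI K) * M) z (mul_ne_zero hf0 hM)
  have hcard : Fintype.card (mixedEmbedding.index K) = n := by
    rw [Pool.Agent.H65.GLA.card_index, hK]
  have hN0 : 0 < N := by linarith
  have AP : AF κ P = AK K κ M z := by
    unfold AF AK
    exact setIntegral_congr_fun measurableSet_Ioi fun T hT => by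
      simp only [(hPT T hT).1]
  have APi : AF κ P⁻¹ = AK K κ (du K M) (-z) := by
    unfold AF AK
    exact setIntegral_congr_fun measurableSet_Ioi fun T hT => by
      simp only [(hPT T hT).2]
  have AQ : AF κ Q = AK K κ ((f : FI K) * M) z := by
    unfold AF AK
    exact setIntegral_congr_fun measurableSet_Ioi fun T hT => by
      simp only [(hQT T hT).1]
  have AQi : AF κ Q⁻¹ = AK K κ (du K ((f : FI K) * M)) (-z) := by
    unfold AF AK
    exact setIntegral_congr_fun measurableSet_Ioi fun T hT => by
      simp only [(hQT T hT).2]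
  have key := hC κ hκ hκ1 _ P Q hP hQ hPd hQd hcard N V hN hV
  rw [AP, APi, AQ, AQi, (hPT _ (by positivity)).1, (hQT _ (by positivity)).1] at key
  exact key

end Pool.Agent.H56.GLB
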